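import Pool.Agent.Q35.TB.Enr
import Pool.Agent.Q68.TT.Mzf

/-!
# Project TB, job MZX (helper150): Mazur's question for all quadratic twists over all extensions of
bounded degree, with one finite set
-/

set_option autoImplicit false

open MvPolynomial Height Pool.Agent.Q35.TT Pool.Agent.Q35.TB

namespace Pool.Agent.Q150.TB

/-- MZX. -/
theorem mzx (h1 : S_TAF) (h2 : S_MZQ) (h3 : S_CHF) (h4 : S_EXF) : S_MZX := by
  intro K _ _ n F hF hs D
  have hT : ∀ ε : Fin n → Fin 2, ∃ T : Set (Fin n → AlgebraicClosure K), T.Finite ∧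
      ∀ (L : Type) [Field L] [NumberField L] [Algebra K L], Module.finrank K L ≤ D →
      ∀ z : Fin n → L, (∀ i, TorN (ex L (ch F ε)) z i) → ∀ φ : L →ₐ[K] AlgebraicClosure K,
        (fun j => φ (z j)) ∈ T := fun ε =>
    h1 K n (ch F ε) (h3 K n F hF ε).1 ((h3 K n F hF ε).2.1 hs) D
  choose T hTf hT2 using hT
  refine ⟨⋃ ε : Fin n → Fin 2, pt ε '' T ε, Set.finite_iUnion fun ε => (hTf ε).image _, ?_⟩
  intro L _ _ _ hD hfin e he M _ _ σ hσ W X hX hW hWX hnot hsp g hg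
  have : Module.Finite K L := Module.Finite.of_restrictScalars_finite ℚ K L
  have : Algebra.IsAlgebraic K L := Algebra.IsAlgebraic.of_finite K L
  obtain ⟨e1, e2, e3, -, -⟩ := h4 K L n F hF
  choose ε hε using hX
  have hX2 : ∀ p, X (p.1, ε p.1) * pt ε (Pool.Agent.Q68.TT.Mzf.zc ε X) p = X p :=
    Pool.Agent.Q68.TT.Mzf.pt_zc ε X hε
  refine h2 L n (ex L F) e1 (e2.1 hs) hfin e he M σ hσ W X hW hWX ?_ hsp g hg
  refine ⟨ε, fun j => X (j, ε j), Pool.Agent.Q68.TT.Mzf.zc ε X, hε, ?_, ?_⟩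
  · funext p
    exact (hX2 p).symm
  by_contra hno
  push Not at hno
  rw [e3 ε] at hno
  let φ : L →ₐ[K] AlgebraicClosure K := IsAlgClosed.lift
  have hm := hT2 ε L hD _ hno φ
  refine hnot φ (pt ε fun j => φ (Pool.Agent.Q68.TT.Mzf.zc ε X j))
    (Set.mem_iUnion.2 ⟨ε, _, hm, rfl⟩) (fun j => φ (X (j, ε j))) ?_
  funext p
  have h5 := Pool.Agent.Q68.TT.Mzf.pt_map (φ : L →+* AlgebraicClosure K) ε
    (Pool.Agent.Q68.TT.Mzf.zc ε X) p
  have h6 := congrArg φ (hX2 p)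
  rw [map_mul] at h6
  rw [← h6]
  exact congrArg (fun t => φ (X (p.1, ε p.1)) * t) h5

end Pool.Agent.Q150.TB
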