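import Pool.Agent.Q35.TB.Stm

/-!
# Project TB, job NCB (helper150): the theorem of Northcott for elements of bounded degree
-/

set_option autoImplicit false

open Height AdmissibleAbsValues Module

namespace Pool.Agent.Q150.TB

/-- The absolute value at an infinite place is at most the height. -/
theorem place_le {L : Type} [Field L] [NumberField L] (x : L) (v : NumberField.InfinitePlace L) :
    v x ≤ mulHeight₁ x := by
  classical
  rw [NumberField.mulHeight₁_eq]
  have h1 : (1 : ℝ) ≤ ∏ᶠ w : NumberField.FinitePlace L, max (w x) 1 := by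
    exact one_le_finprod fun w => le_max_right _ _
  have h2 : v x ≤ ∏ w : NumberField.InfinitePlace L, max (w x) 1 ^ w.mult := by
    rw [← Finset.mul_prod_erase Finset.univ _ (Finset.mem_univ v)]
    have h3 : (1 : ℝ) ≤ ∏ w ∈ Finset.univ.erase v, max (w x) 1 ^ w.mult :=
      Finset.one_le_prod fun w _ => one_le_pow₀ (le_max_right _ _)
    have h4 : v x ≤ max (v x) 1 ^ v.mult :=
      (le_max_left _ _).trans (le_self_pow₀ (le_max_right _ _) v.mult_ne_zero)
    calc v x ≤ max (v x) 1 ^ v.mult := h4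
      _ = max (v x) 1 ^ v.mult * 1 := (mul_one _).symm
      _ ≤ _ := mul_le_mul_of_nonneg_left h3 (by positivity)
  have h5 : (0 : ℝ) ≤ ∏ w : NumberField.InfinitePlace L, max (w x) 1 ^ w.mult := by positivity
  calc v x ≤ _ := h2
    _ = (∏ w : NumberField.InfinitePlace L, max (w x) 1 ^ w.mult) * 1 := (mul_one _).symm
    _ ≤ _ := mul_le_mul_of_nonneg_left h1 h5

/-- NCB. -/
theorem ncb : Pool.Agent.Q35.TB.S_NCB := by
  intro K _ _ D H
  classical
  set N : ℕ := D * finrank ℚ K with hN
  set c : ℝ := max (H ^ 2) 1 ^ N * 2 ^ N with hc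
  set C : ℕ := Nat.ceil c with hC
  set R : Set (AlgebraicClosure K) :=
    ⋃ (f : Polynomial ℤ) (_ : f.natDegree ≤ N ∧ ∀ i, f.coeff i ∈ Set.Icc (-C : ℤ) C),
      ((f.map (algebraMap ℤ (AlgebraicClosure K))).roots.toFinset : Set (AlgebraicClosure K))
    with hR
  have hRf : R.Finite :=
    Polynomial.bUnion_roots_finite (algebraMap ℤ (AlgebraicClosure K)) N
      (Set.finite_Icc (-C : ℤ) C)
  refine ⟨⋃ m ∈ Finset.Icc 1 ⌊H⌋₊, (fun b : AlgebraicClosure K => b / (m : AlgebraicClosure K)) '' R,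
    ?_, ?_⟩
  · exact Set.Finite.biUnion (Finset.finite_toSet _) fun m _ => hRf.image _
  · intro L _ _ _ hD x hx φ
    obtain ⟨m, hm0, hm, hint⟩ := NumberField.exists_nat_le_mulHeight₁ x
    have hmH : (m : ℝ) ≤ H := hm.trans hx
    have hm1 : m ∈ Finset.Icc 1 ⌊H⌋₊ := by
      rw [Finset.mem_Icc]
      exact ⟨Nat.one_le_iff_ne_zero.2 hm0, Nat.le_floor hmH⟩
    refine Set.mem_biUnion hm1 ⟨φ ((m : L) * x), ?_, ?_⟩
    swap
    · have : (m : AlgebraicClosure K) ≠ 0 := Nat.cast_ne_zero.2 hm0
      simp only [map_mul, map_natCast]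
      field_simp
    have hfr : finrank ℚ K * finrank K L = finrank ℚ L := Module.finrank_mul_finrank ℚ K L
    have hdN : finrank ℚ L ≤ N := by
      rw [← hfr, hN, mul_comm D]
      exact Nat.mul_le_mul_left _ hD
    set y : L := (m : L) * x with hy
    have hb : ∀ ψ : L →+* ℂ, ‖ψ y‖ ≤ H ^ 2 := by
      intro ψ
      have h1 : ‖ψ x‖ ≤ H := (place_le x (NumberField.InfinitePlace.mk ψ)).trans hx
      have h0 : (0 : ℝ) ≤ H := (norm_nonneg _).trans h1
      rw [hy, map_mul, map_natCast, norm_mul, Complex.norm_natCast, sq]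
      exact mul_le_mul hmH h1 (norm_nonneg _) h0
    have hmin := minpoly.isIntegrallyClosed_eq_field_fractions' ℚ hint
    rw [hR]
    simp_rw [Set.mem_iUnion]
    refine ⟨minpoly ℤ y, ⟨?_, fun i => ?_⟩, ?_⟩
    · rw [← (minpoly.monic hint).natDegree_map (algebraMap ℤ ℚ), ← hmin]
      exact (minpoly.natDegree_le y).trans hdN
    · rw [Set.mem_Icc, ← abs_le, ← @Int.cast_le ℝ]
      have h1 := NumberField.Embeddings.coeff_bdd_of_norm_le hb i
      have h2 : max (H ^ 2) 1 ^ finrank ℚ L * ((finrank ℚ L).choose (finrank ℚ L / 2) : ℝ) ≤ c := by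
        rw [hc]
        have h3 : ((finrank ℚ L).choose (finrank ℚ L / 2) : ℝ) ≤ 2 ^ N := by
          calc ((finrank ℚ L).choose (finrank ℚ L / 2) : ℝ) ≤ ((2 ^ finrank ℚ L : ℕ) : ℝ) :=
                Nat.cast_le.2 (Nat.choose_le_two_pow _ _)
            _ = 2 ^ finrank ℚ L := by push_cast; rfl
            _ ≤ 2 ^ N := pow_le_pow_right₀ (by norm_num) hdN
        exact mul_le_mul (pow_le_pow_right₀ (le_max_right _ _) hdN) h3 (by positivity)
          (by positivity)
      refine (Eq.trans_le ?_ (h1.trans h2)).trans (Nat.le_ceil c)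
      rw [hmin, Polynomial.coeff_map, eq_intCast, Int.norm_cast_rat, Int.norm_eq_abs, Int.cast_abs]
    · rw [Finset.mem_coe, Multiset.mem_toFinset, Polynomial.mem_roots']
      refine ⟨?_, ?_⟩
      · exact ((minpoly.monic hint).map _).ne_zero
      · rw [Polynomial.IsRoot.def, Polynomial.eval_map]
        have h1 : Polynomial.eval₂ (algebraMap ℤ (AlgebraicClosure K)) (φ y) (minpoly ℤ y)
            = φ (Polynomial.aeval y (minpoly ℤ y)) := by
          rw [Polynomial.aeval_def]
          have h2 := Polynomial.hom_eval₂ (minpoly ℤ y) (algebraMap ℤ L) (φ : L →+* AlgebraicClosure K) y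
          have h3 : (φ : L →+* AlgebraicClosure K).comp (algebraMap ℤ L) =
              algebraMap ℤ (AlgebraicClosure K) := RingHom.ext_int _ _
          rw [h3] at h2
          exact h2.symm
        rw [h1, minpoly.aeval, map_zero]

end Pool.Agent.Q150.TB
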