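import Pool.Agent.Q35.TB.Stm
import Pool.Agent.Q192.TT.Nsn

/-!
# Project TB, job NSD (helper150): a lower bound for the height of the partial derivatives, for all
extensions of the ground field
-/

set_option autoImplicit false

open Height AdmissibleAbsValues MvPolynomial

namespace Pool.Agent.Q150.TB

open Pool.Agent.Q35.TT Pool.Agent.Q35.TB Pool.Agent.Q192.TT

section places

variable {K : Type} [Field K] [NumberField K]

theorem arch_le {L : Type} [Field L] [NumberField L] [Algebra K L] (c : K) (v : AbsoluteValue L ℝ)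
    (hv : v ∈ archAbsVal (K := L)) : v (algebraMap K L c) ≤ ∑ ψ : K →+* ℂ, ‖ψ c‖ := by
  obtain ⟨φ, rfl⟩ := NumberField.mem_multisetInfinitePlace.1 hv
  exact Finset.single_le_sum (f := fun ψ : K →+* ℂ => ‖ψ c‖) (fun _ _ => norm_nonneg _)
    (Finset.mem_univ (φ.comp (algebraMap K L)))

theorem arch_nat {L : Type} [Field L] [NumberField L] (m : ℕ) (v : AbsoluteValue L ℝ)
    (hv : v ∈ archAbsVal (K := L)) : v (m : L) = m := by
  obtain ⟨φ, rfl⟩ := NumberField.mem_multisetInfinitePlace.1 hv
  change ‖φ (m : L)‖ = m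
  rw [map_natCast, Complex.norm_natCast]

theorem nonarch_int {L : Type} [Field L] [NumberField L] (v : AbsoluteValue L ℝ)
    (hv : v ∈ nonarchAbsVal (K := L)) (x : L) (hx : IsIntegral ℤ x) : v x ≤ 1 := by
  obtain ⟨w, rfl⟩ := (hv : NumberField.IsFinitePlace v)
  exact NumberField.FinitePlace.norm_le_one (K := L) w ⟨x, hx⟩

theorem nonarch_nat {L : Type} [Field L] [NumberField L] (v : AbsoluteValue L ℝ)
    (hv : v ∈ nonarchAbsVal (K := L)) (m : ℕ) : v (m : L) ≤ 1 :=
  nonarch_int v hv _ (isIntegral_natCast m)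

theorem den (c : K) : ∃ m : ℕ, m ≠ 0 ∧ ∀ (L : Type) [Field L] [NumberField L] [Algebra K L],
    ∀ v ∈ nonarchAbsVal (K := L), v (algebraMap K L c) * v (m : L) ≤ 1 := by
  obtain ⟨m, hm, -, hi⟩ := NumberField.exists_nat_le_mulHeight₁ c
  refine ⟨m, hm, fun L _ _ _ v hv => ?_⟩
  have h := nonarch_int v hv (algebraMap K L ((m : K) * c)) (hi.algebraMap)
  rwa [map_mul, map_natCast, map_mul, mul_comm] at h

/-- A common denominator. -/
theorem den_fin (S : Finset K) : ∃ m : ℕ, m ≠ 0 ∧ ∀ (L : Type) [Field L] [NumberField L]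
    [Algebra K L], ∀ v ∈ nonarchAbsVal (K := L), ∀ c ∈ S,
      v (algebraMap K L c) * v (m : L) ≤ 1 := by
  classical
  choose m hm hm2 using (den : ∀ c : K, _)
  refine ⟨∏ c ∈ S, m c, Finset.prod_ne_zero_iff.2 fun c _ => hm c, fun L _ _ _ v hv c hc => ?_⟩
  rw [← Finset.mul_prod_erase S _ hc, Nat.cast_mul, map_mul, ← mul_assoc]
  exact mul_le_one₀ (hm2 c L v hv) (v.nonneg _) (nonarch_nat v hv _)

end places

section bound

variable {K : Type} [Field K] [NumberField K]

theorem bound {ι ι' : Type} [Finite ι] [Finite ι'] [Nonempty ι'] (q : ι' → MvPolynomial ι K) :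
    ∃ B : ℝ, 1 ≤ B ∧ ∀ (L : Type) [Field L] [NumberField L] [Algebra K L],
      mulHeightBound (fun a => map (algebraMap K L) (q a)) ≤ B ^ totalWeight L := by
  classical
  have := Fintype.ofFinite ι'
  set S : Finset K := Finset.univ.biUnion fun a : ι' => (q a).support.image fun s => coeff s (q a)
    with hS
  have hSm : ∀ a, ∀ s ∈ (q a).support, coeff s (q a) ∈ S := fun a s hs =>
    Finset.mem_biUnion.2 ⟨a, Finset.mem_univ a, Finset.mem_image_of_mem _ hs⟩
  obtain ⟨m, hm, hm2⟩ := den_fin S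
  set A : ℝ := 1 + ∑ a : ι', ∑ s ∈ (q a).support, ∑ ψ : K →+* ℂ, ‖ψ (coeff s (q a))‖ with hA
  have hA1 : 1 ≤ A := by
    rw [hA]
    have : 0 ≤ ∑ a : ι', ∑ s ∈ (q a).support, ∑ ψ : K →+* ℂ, ‖ψ (coeff s (q a))‖ := by positivity
    linarith
  have hm1 : (1 : ℝ) ≤ m := by exact_mod_cast Nat.one_le_iff_ne_zero.2 hm
  refine ⟨A * m, one_le_mul_of_one_le_of_one_le hA1 hm1, fun L _ _ _ => ?_⟩
  have hmL : (m : L) ≠ 0 := Nat.cast_ne_zero.2 hm
  rw [mulHeightBound_eq, mul_pow]
  -- the archimedean part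
  have h1 : (archAbsVal.map fun v : AbsoluteValue L ℝ ↦ ⨆ j : ι',
      (AddMonoidAlgebra.coeff <| map (algebraMap K L) (q j)).sum (fun _ c ↦ v c)).prod ≤
      A ^ totalWeight L := by
    have h2 : (archAbsVal.map fun v : AbsoluteValue L ℝ ↦ ⨆ j : ι',
      (AddMonoidAlgebra.coeff <| map (algebraMap K L) (q j)).sum (fun _ c ↦ v c)).prod ≤
        (archAbsVal.map fun _ : AbsoluteValue L ℝ ↦ A).prod := by
      refine Multiset.prod_map_le_prod_map₀ _ _ (fun v _ ↦ ?_) (fun v hv ↦ ?_)
      · exact Real.iSup_nonneg fun j ↦ by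
          rw [MvPolynomial.sum_def]
          exact Finset.sum_nonneg fun _ _ => v.nonneg _
      · refine Real.iSup_le (fun j ↦ ?_) (by linarith)
        rw [MvPolynomial.sum_def]
        calc ∑ s ∈ (map (algebraMap K L) (q j)).support, v (coeff s (map (algebraMap K L) (q j)))
            ≤ ∑ s ∈ (q j).support, v (coeff s (map (algebraMap K L) (q j))) :=
              Finset.sum_le_sum_of_subset_of_nonneg (support_map_subset _ _)
                fun _ _ _ => v.nonneg _
          _ ≤ ∑ s ∈ (q j).support, ∑ ψ : K →+* ℂ, ‖ψ (coeff s (q j))‖ :=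
              Finset.sum_le_sum fun s _ => by
                rw [coeff_map]
                exact arch_le _ v hv
          _ ≤ ∑ a : ι', ∑ s ∈ (q a).support, ∑ ψ : K →+* ℂ, ‖ψ (coeff s (q a))‖ :=
              Finset.single_le_sum (f := fun a : ι' => ∑ s ∈ (q a).support, ∑ ψ : K →+* ℂ,
                ‖ψ (coeff s (q a))‖) (fun _ _ => by positivity) (Finset.mem_univ j)
          _ ≤ A := by rw [hA]; linarith
    rw [Multiset.map_const', Multiset.prod_replicate] at h2
    exact h2
  -- the other places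
  have h3 : (∏ᶠ v : nonarchAbsVal (K := L), ⨆ j, max (⨆ s : (map (algebraMap K L) (q j)).support,
      v.val (coeff s.val (map (algebraMap K L) (q j)))) 1) ≤ (m : ℝ) ^ totalWeight L := by
    have hpos : ∀ v : nonarchAbsVal (K := L), 0 < v.val (m : L) := fun v => v.val.pos hmL
    have hle : ∀ v : nonarchAbsVal (K := L), (⨆ j, max (⨆ s : (map (algebraMap K L) (q j)).support,
      v.val (coeff s.val (map (algebraMap K L) (q j)))) 1) ≤ (v.val (m : L))⁻¹ := by
      intro v
      have hi1 : 1 ≤ (v.val (m : L))⁻¹ := (one_le_inv₀ (hpos v)).2 (nonarch_nat v.val v.2 m)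
      refine Real.iSup_le (fun j => max_le (Real.iSup_le (fun s => ?_) (by linarith)) hi1)
        (by linarith)
      have h4 : s.val ∈ (q j).support := support_map_subset _ _ s.2
      have h5 := hm2 L v.val v.2 _ (hSm j _ h4)
      rw [coeff_map, ← mul_le_mul_iff_left₀ (hpos v), inv_mul_cancel₀ (hpos v).ne']
      exact h5
    have hge : ∀ v : nonarchAbsVal (K := L), 1 ≤ (⨆ j, max (⨆ s :
      (map (algebraMap K L) (q j)).support,
      v.val (coeff s.val (map (algebraMap K L) (q j)))) 1) := fun v =>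
      Finite.le_ciSup_of_le (Classical.arbitrary ι') (le_max_right _ _)
    have hfm := hasFiniteMulSupport (K := L) hmL
    have hfi : (fun v : nonarchAbsVal (K := L) => (v.val (m : L))⁻¹).HasFiniteMulSupport := by
      refine hfm.subset ?_
      intro v hv hv1
      have h7 : v.val (m : L) = 1 := hv1
      exact hv (by show (v.val (m : L))⁻¹ = 1; rw [h7, inv_one])
    have hfg : (fun v : nonarchAbsVal (K := L) => ⨆ j, max (⨆ s :
      (map (algebraMap K L) (q j)).support,
      v.val (coeff s.val (map (algebraMap K L) (q j)))) 1).HasFiniteMulSupport := by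
      refine hfm.subset ?_
      intro v hv hv1
      refine hv (le_antisymm ?_ (hge v))
      have h6 := hle v
      have h7 : v.val (m : L) = 1 := hv1
      rwa [h7, inv_one] at h6
    have h8 := finprod_le_finprod hfg (fun v => zero_le_one.trans (hge v)) hfi hle
    refine h8.trans (le_of_eq ?_)
    rw [finprod_inv_distrib]
    have h9 := product_formula hmL
    have h10 : (archAbsVal.map fun v : AbsoluteValue L ℝ => v (m : L)).prod =
        (m : ℝ) ^ totalWeight L := by
      rw [Multiset.map_congr rfl fun v hv => arch_nat m v hv, Multiset.map_const',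
        Multiset.prod_replicate]
      rfl
    rw [h10] at h9
    exact (eq_inv_of_mul_eq_one_left h9).symm
  refine mul_le_mul h1 h3 ?_ (by positivity)
  exact finprod_nonneg fun v => Real.iSup_nonneg fun j => zero_le_one.trans (le_max_right _ _)

end bound

section cof

variable {K : Type} [Field K] {n : ℕ}

/-- The combination of the generic forms with the cofactors. -/
noncomputable def comb (f : MvPolynomial (Fin n) K)
    (q : (Fin n × Fin 2 × Fin 2) → MvPolynomial (Fin n → Fin 2) K) :
    MvPolynomial (Fin n × Fin 2) K :=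
  ∑ k, aeval (fun e : Fin n → Fin 2 => ∏ j, xv K n j (e j)) (q k) * zp f k

theorem comb_map {L : Type} [Field L] [Algebra K L] (f : MvPolynomial (Fin n) K)
    (q : (Fin n × Fin 2 × Fin 2) → MvPolynomial (Fin n → Fin 2) K) (x : Fin n → Fin 2 → L) :
    eval₂Hom (algebraMap K L) (fun p : Fin n × Fin 2 => x p.1 p.2) (comb f q) =
      ∑ k, eval (fun e => ∏ j, x j (e j)) (map (algebraMap K L) (q k)) *
        ZG (map (algebraMap K L) f) x k := by
  set φ : MvPolynomial (Fin n × Fin 2) K →+* L :=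
    eval₂Hom (algebraMap K L) (fun p : Fin n × Fin 2 => x p.1 p.2) with hφ
  have hC : φ.comp C = algebraMap K L := by
    ext c
    simp [hφ]
  have hX : ∀ j b, φ (xv K n j b) = x j b := by
    intro j b
    simp [hφ, xv]
  unfold comb
  rw [map_sum]
  refine Finset.sum_congr rfl fun k _ => ?_
  rw [map_mul]
  congr 1
  · rw [eval_map, aeval_def, algebraMap_eq]
    have h1 := hom_eval₂ (q k) (C : K →+* MvPolynomial (Fin n × Fin 2) K) φ
      (fun e : Fin n → Fin 2 => ∏ j, xv K n j (e j))
    rw [h1, hC]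
    congr 1
    funext e
    rw [map_prod]
    exact Finset.prod_congr rfl fun j _ => hX j _
  · have h2 := ZG_map φ (map C f) (xv K n) k
    rw [map_map, hC] at h2
    simp only [hX] at h2
    exact h2

theorem cof_ext [CharZero K] (f : MvPolynomial (Fin n) K) (hf : ∀ j, f.degreeOf j ≤ 4)
    (hs : SmoothN f) :
    ∃ (M : ℕ) (Q : (Fin n → Fin 2) × (Fin n × Fin 2 × Fin 2) →
      MvPolynomial (Fin n → Fin 2) K), (∀ a, (Q a).IsHomogeneous M) ∧
      ∀ (L : Type) [Field L] [Algebra K L] (x : Fin n → Fin 2 → L) (e : Fin n → Fin 2),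
        ∑ k, eval (fun e => ∏ j, x j (e j)) (map (algebraMap K L) (Q (e, k))) *
          ZG (map (algebraMap K L) f) x k = (∏ j, x j (e j)) ^ (M + 8) := by
  obtain ⟨M, Q, hQ1, hQ2⟩ := cof f hf hs
  refine ⟨M, Q, hQ1, fun L _ _ x e => ?_⟩
  have key : comb f (fun k => Q (e, k)) = (∏ j, xv K n j (e j)) ^ (M + 8) := by
    apply MvPolynomial.funext
    intro y
    have h1 := comb_map (L := K) f (fun k => Q (e, k)) (fun j b => y (j, b))
    have h2 := hQ2 (fun j b => y (j, b)) e
    have h3 : algebraMap K K = RingHom.id K := rfl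
    rw [h3] at h1
    simp only [map_id] at h1
    rw [h2] at h1
    have h4 : (eval₂Hom (RingHom.id K) (fun p : Fin n × Fin 2 => y (p.1, p.2))) = eval y := rfl
    rw [h4] at h1
    rw [h1]
    simp [xv]
  have h5 := congrArg (eval₂Hom (algebraMap K L) (fun p : Fin n × Fin 2 => x p.1 p.2)) key
  rw [comb_map] at h5
  rw [h5]
  simp [xv]

end cof

/-- NSD. -/
theorem nsd : S_NSD := by
  intro K _ _ n f hf hs
  obtain ⟨M, Q, hQ1, hQ2⟩ := cof_ext f hf hs
  rcases isEmpty_or_nonempty (Fin n × Fin 2 × Fin 2) with he | hne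
  · have h := hQ2 K (fun _ _ => 1) (fun _ => 0)
    simp at h
  obtain ⟨B₁, hB₁, hB⟩ := bound Q
  set c : ℕ := Nat.card (Fin n × Fin 2 × Fin 2) with hc
  have hc1 : 1 ≤ c := Nat.card_pos
  have hc1' : (1 : ℝ) ≤ c := by exact_mod_cast hc1
  refine ⟨c * B₁, one_le_mul_of_one_le_of_one_le hc1' hB₁, fun L _ _ _ z => ?_⟩
  have haf : ∀ j, af z j ≠ 0 := fun j h => one_ne_zero (congrFun h 0)
  have hZ : ZN (ex L f) z = ZG (map (algebraMap K L) f) (af z) := rfl
  refine ⟨fun h0 => ?_, ?_⟩
  · have h := hQ2 L (af z) (fun _ => 0)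
    rw [← hZ, h0] at h
    simp [af] at h
  · have hQL : ∀ a, (map (algebraMap K L) (Q a)).IsHomogeneous M := fun a => (hQ1 a).map _
    have h := mulHeight_eval_ge (N := 8) hQL (fun k => C (ZG (map (algebraMap K L) f) (af z) k))
      (x := fun e => ∏ j, af z j (e j)) (fun e => by
        simp only [eval_C]
        exact hQ2 L _ e)
    rw [mulHeight_fun_prod_eq haf] at h
    have h1 : ∀ j, mulHeight (af z j) = mulHeight₁ (z j) := by
      intro j
      rw [mulHeight₁_eq_mulHeight, mulHeight_swap]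
      rfl
    simp only [h1, eval_C] at h
    rw [← hZ] at h
    have h2 : max (mulHeightBound fun a => map (algebraMap K L) (Q a)) 1 ≤ B₁ ^ totalWeight L :=
      max_le (hB L) (one_le_pow₀ hB₁)
    have h3 : (0 : ℝ) < (c : ℝ) ^ totalWeight L *
        max (mulHeightBound fun a => map (algebraMap K L) (Q a)) 1 :=
      mul_pos (pow_pos (by linarith) _) (lt_of_lt_of_le one_pos (le_max_right _ _))
    rw [inv_mul_le_iff₀ h3] at h
    refine h.trans ?_
    rw [mul_pow]
    refine mul_le_mul_of_nonneg_right ?_ (mulHeight_pos _).le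
    exact mul_le_mul_of_nonneg_left h2 (by positivity)

end Pool.Agent.Q150.TB
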